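import Pool.Agent.helper91.RB.Spec5

/-!
# Row rb:UNI (MP_24e2e7_nt): a uniform denominator
-/

set_option autoImplicit false

namespace Pool.Agent.RB

open NumberField IsDedekindDomain Module
open scoped nonZeroDivisors Real Classical IsMulCommutative

theorem UNI_denom {G : Type} [CommGroup G] (a : MonoidAlgebra ℚ G) :
    ∃ (k : ℕ) (b : MonoidAlgebra ℤ G), k ≠ 0 ∧ k • a = zq b := by
  induction a using MonoidAlgebra.induction_linear with
  | zero => exact ⟨1, 0, one_ne_zero, by simp⟩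
  | add f g hf hg =>
    obtain ⟨k, b, hk, h1⟩ := hf
    obtain ⟨l, c, hl, h2⟩ := hg
    refine ⟨k * l, l • b + k • c, mul_ne_zero hk hl, ?_⟩
    rw [map_add, map_nsmul, map_nsmul, ← h1, ← h2, smul_add, smul_smul, smul_smul, mul_comm l k]
  | single g q =>
    refine ⟨q.den, MonoidAlgebra.single g q.num, q.den_ne_zero, ?_⟩
    have h1 : zq (MonoidAlgebra.single g q.num : MonoidAlgebra ℤ G) = MonoidAlgebra.single g (q.num : ℚ) := by
      unfold zq
      simp
    rw [h1, MonoidAlgebra.smul_single, nsmul_eq_mul, Rat.den_mul_eq_num]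

theorem UNI : UNI_stmt := by
  intro G _ _ U _ W _ _ ι hι N r u
  have hu : u ∈ Submodule.span (MonoidAlgebra ℚ G) (Set.range (exteriorPower.ιMulti (MonoidAlgebra ℚ G) r (M := N))) := by
    rw [exteriorPower.ιMulti_span]
    trivial
  induction hu using Submodule.span_induction with
  | mem x hx =>
    obtain ⟨w, rfl⟩ := hx
    choose n x hn hx using fun i => hι (w i : W)
    refine ⟨∏ i, n i, Finset.prod_ne_zero_iff.2 (fun i _ => hn i), fun f hf => ?_⟩
    choose y hy using fun (i : Fin r) (j : Fin r) => hf j (x i)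
    refine ⟨Matrix.det (Matrix.of y), ?_⟩
    have h1 : DT (fun j => (f j).comp N.subtype) (exteriorPower.ιMulti (MonoidAlgebra ℚ G) r w) =
        Matrix.det (Matrix.of (fun i j => f j (w i : W))) := by
      unfold DT
      rw [exteriorPower.alternatingMapLinearEquiv_apply_ιMulti]
      rfl
    rw [h1, RingHom.map_det]
    have h2 : (zq.mapMatrix (Matrix.of y) : Matrix (Fin r) (Fin r) (MonoidAlgebra ℚ G)) =
        Matrix.of (fun i j => (n i : MonoidAlgebra ℚ G) * (Matrix.of (fun i j => f j (w i : W))) i j) := by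
      refine Matrix.ext fun i j => ?_
      show zq (y i j) = (n i : MonoidAlgebra ℚ G) * f j (w i : W)
      rw [← hy i j, ← hx i, map_nsmul, nsmul_eq_mul]
    rw [h2, Matrix.det_mul_column, nsmul_eq_mul, Nat.cast_prod]
  | zero => exact ⟨1, one_ne_zero, fun f _ => ⟨0, by simp⟩⟩
  | add x y _ _ hx hy =>
    obtain ⟨n, hn, h1⟩ := hx
    obtain ⟨m, hm, h2⟩ := hy
    refine ⟨n * m, mul_ne_zero hn hm, fun f hf => ?_⟩
    obtain ⟨a, ha⟩ := h1 f hf
    obtain ⟨b, hb⟩ := h2 f hf
    refine ⟨m • a + n • b, ?_⟩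
    rw [map_add, map_add, map_nsmul, map_nsmul, ← ha, ← hb, smul_add, smul_smul, smul_smul, mul_comm m n]
  | smul a x _ hx =>
    obtain ⟨n, hn, h1⟩ := hx
    obtain ⟨k, b, hk, h2⟩ := UNI_denom a
    refine ⟨k * n, mul_ne_zero hk hn, fun f hf => ?_⟩
    obtain ⟨y, hy⟩ := h1 f hf
    refine ⟨b * y, ?_⟩
    rw [map_smul, map_mul, ← h2, ← hy, smul_eq_mul, mul_smul, smul_mul_assoc, mul_smul_comm]

end Pool.Agent.RB
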