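import Pool.Agent.helper24.RB.Spec

/-!
# Row WIN of project RB (MP_baa4d7_al): a regular orbit modulo the `p ^ s`-th powers
-/

set_option autoImplicit false

namespace Pool.Agent.LE

open Pool.Agent.helper58.DC Pool.Agent.DI Pool.Agent.GR Pool.Agent.OB Pool.Agent.DR Pool.Agent.FI Pool.Agent.FI3 Pool.Agent.FI4 Pool.Agent.FI4C

theorem WIN_mono (p r k : ℕ) : WSq p r k ≤ WSq p r (k + 1) := by
  induction k with
  | zero => exact Nat.zero_le _
  | succ n ih =>
    show r * WSq p r n + (ALL_c p r + 1) ≤ r * WSq p r (n + 1) + (ALL_c p r + 1)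
    exact Nat.add_le_add_right (Nat.mul_le_mul_left r ih) _

theorem WIN_le (p r : ℕ) {a b : ℕ} (h : a ≤ b) : WSq p r a ≤ WSq p r b := by
  induction b, h using Nat.le_induction with
  | base => exact le_rfl
  | succ n _ ih => exact ih.trans (WIN_mono p r n)

/-- a bounded monotone sequence of numbers is constant somewhere -/
theorem WIN_pig (f : ℕ → ℕ) (N : ℕ) (hf : ∀ k, f k ≤ f (k + 1)) (hN : ∀ k, f k ≤ N) : ∃ k ≤ N, f (k + 1) = f k := by
  by_contra hcon
  push Not at hcon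
  have h : ∀ k, k ≤ N + 1 → k ≤ f k := by
    intro k
    induction k with
    | zero => intro _; exact Nat.zero_le _
    | succ n ih =>
      intro hn
      have h1 := ih (by omega)
      have h2 := hcon n (by omega)
      have h3 := hf n
      omega
  have h4 := h (N + 1) le_rfl
  have h5 := hN (N + 1)
  omega

section

variable {A : Type} [CommGroup A]

/-- the small automorphisms -/
def WIN_S (P : Subgroup (MulAut A)) (q : ℕ) : Set (MulAut A) := {φ | φ ∈ P ∧ ∀ w, ALL_del φ w ^ q = 1}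

theorem WIN_S_mono (P : Subgroup (MulAut A)) (p : ℕ) {a b : ℕ} (h : a ≤ b) : WIN_S P (p ^ a) ⊆ WIN_S P (p ^ b) := by
  rintro φ ⟨h1, h2⟩
  refine ⟨h1, fun w => ?_⟩
  obtain ⟨c, rfl⟩ := Nat.exists_eq_add_of_le h
  rw [pow_add, pow_mul, h2 w, one_pow]

variable [Finite A]

theorem WIN_card {p : ℕ} (hp : p.Prime) (hA : IsPGroup p A) (r : ℕ) (hr : Nat.card (powMonoidHom p : A →* A).ker ≤ p ^ r)
    (P : Subgroup (MulAut A)) (hP : ¬ p ∣ Nat.card P) : Nat.card P ≤ ALL_c p r := by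
  have hpf : Fact p.Prime := ⟨hp⟩
  have hle : (powMonoidHom p : A →* A).range ≤ ALL_F p P := by
    rintro _ ⟨x, rfl⟩ φ _
    exact ⟨ALL_del φ x, by rw [powMonoidHom_apply, map_pow]⟩
  have hidx : (powMonoidHom p : A →* A).range.index = Nat.card (powMonoidHom p : A →* A).ker := by
    have h1 := ALL_idx (A := A) p
    have h2 := Subgroup.card_mul_index (powMonoidHom p : A →* A).range
    rw [← h1, mul_comm] at h2
    exact Nat.eq_of_mul_eq_mul_right Nat.card_pos h2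
  obtain ⟨k, hk⟩ := IsPGroup.iff_card.1 hA
  obtain ⟨a, -, ha⟩ := (Nat.dvd_prime_pow hp).1 ((Subgroup.card_subgroup_dvd_card (powMonoidHom p : A →* A).ker).trans (dvd_of_eq hk))
  rw [ha] at hidx hr
  have har : a ≤ r := (Nat.pow_le_pow_iff_right hp.one_lt).1 hr
  obtain ⟨d, hd, hdi⟩ := (Nat.dvd_prime_pow hp).1 ((Subgroup.index_dvd_of_le hle).trans (dvd_of_eq hidx))
  exact (ALL_ord hp hA d P hP hdi).trans (ALL_c_mono hp (hd.trans har))

/-- the main step -/
theorem WIN_step {p : ℕ} (hp : p.Prime) (hA : IsPGroup p A) (r : ℕ) (hr : Nat.card (powMonoidHom p : A →* A).ker ≤ p ^ r)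
    (P : Subgroup (MulAut A)) (hP : ¬ p ∣ Nat.card P) (n₀ s : ℕ) (hn : Nat.card P ≤ n₀)
    (hsm : WIN_S P (p ^ (r * s + (n₀ + 1))) ⊆ WIN_S P (p ^ s)) (u₀ : A) (hu₀ : ∀ φ ∈ P, φ u₀ = u₀ → φ = 1) :
    ∃ u : A, ∀ φ ∈ P, φ ≠ 1 → ¬ ∃ v : A, v ^ p ^ (r * s + (n₀ + 1)) = ALL_del φ u := by
  classical
  have hfin := ALL_finMulAut (A := A)
  have : Fintype P := Fintype.ofFinite P
  set s' := r * s + (n₀ + 1) with hs'
  have hs1 : 1 ≤ s' := by omega
  by_contra hcon
  push Not at hcon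
  have hpow : ∀ φ ∈ P, φ ^ Nat.card P = 1 := by
    intro φ hφ
    have h3 : (⟨φ, hφ⟩ : P) ^ Nat.card P = 1 := pow_card_eq_one'
    have h4 := congrArg Subtype.val h3
    rwa [Subgroup.coe_pow, Subgroup.coe_one] at h4
  set K : Subgroup A := (powMonoidHom (p ^ s) : A →* A).range with hK
  set T : Set A := (fun x => u₀ * x) '' (K : Set A) with hT
  set I : Finset P := Finset.univ.filter (fun φ : P => ∃ w, ALL_del (φ : MulAut A) w ^ p ^ s' ≠ 1) with hI
  have hcov : T ⊆ ⋃ φ ∈ I, (((powMonoidHom (p ^ s') : A →* A).range.comap (ALL_del (φ : MulAut A)) : Subgroup A) : Set A) := by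
    rintro u ⟨x, ⟨y, hy⟩, rfl⟩
    change y ^ p ^ s = x at hy
    obtain ⟨φ, hφ, hφ1, v, hv⟩ := hcon (u₀ * x)
    rw [Set.mem_iUnion₂]
    refine ⟨⟨φ, hφ⟩, ?_, v, hv⟩
    rw [hI, Finset.mem_filter]
    refine ⟨Finset.mem_univ _, ?_⟩
    by_contra hno
    push Not at hno
    -- `φ` is small at `s'`, so at `s`
    have h1 : φ ∈ WIN_S P (p ^ s') := ⟨hφ, hno⟩
    have h2 := hsm h1
    have h3 : ALL_del φ (u₀ * x) = ALL_del φ u₀ := by
      rw [map_mul, ← hy, map_pow, h2.2 y, mul_one]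
    rw [h3] at hv
    obtain ⟨z, hz⟩ := ALL_core φ (Nat.card P) (hpow φ hφ) v u₀ (p ^ s') hv
    rw [hv, hno z] at hz
    have h4 := ALL_cop hp hA hP hz
    rw [ALL_del_apply, inv_mul_eq_one] at h4
    exact hφ1 (hu₀ φ hφ h4.symm)
  have hTc : T.ncard = Nat.card K := by
    rw [hT, Set.ncard_image_of_injective _ (mul_right_injective u₀)]
    rfl
  have h1 : p ^ s' * Nat.card K ≤ n₀ * Nat.card A := by
    rw [← hTc]
    calc p ^ s' * T.ncard
        ≤ p ^ s' * ∑ φ ∈ I, (((powMonoidHom (p ^ s') : A →* A).range.comap (ALL_del (φ : MulAut A)) : Subgroup A) : Set A).ncard :=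
          Nat.mul_le_mul_left _ ((Set.ncard_le_ncard hcov (Set.toFinite _)).trans (Finset.set_ncard_biUnion_le _ _))
      _ = ∑ φ ∈ I, p ^ s' * (((powMonoidHom (p ^ s') : A →* A).range.comap (ALL_del (φ : MulAut A)) : Subgroup A) : Set A).ncard :=
          Finset.mul_sum _ _ _
      _ ≤ ∑ φ ∈ I, Nat.card A := by
          refine Finset.sum_le_sum fun φ hφ => ?_
          rw [hI, Finset.mem_filter] at hφ
          obtain ⟨w, hw⟩ := hφ.2
          refine ALL_kix hp hA (φ : MulAut A) _ (hpow φ φ.2) hP s' hs1 ⟨w, fun h => hw ?_⟩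
          have h2 : p ^ s' = p ^ (s' - 1) * p := by rw [← pow_succ, Nat.sub_add_cancel hs1]
          rw [h2, pow_mul, h, one_pow]
      _ = I.card * Nat.card A := by rw [Finset.sum_const, smul_eq_mul]
      _ ≤ n₀ * Nat.card A := by
          refine Nat.mul_le_mul_right _ ((Finset.card_le_univ I).trans ?_)
          rw [← Nat.card_eq_fintype_card]
          exact hn
  have h2 : Nat.card A ≤ p ^ (r * s) * Nat.card K := by
    rw [← ALL_idx (A := A) (p ^ s)]
    refine Nat.mul_le_mul_right _ ((ALL_om p s).trans ?_)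
    rw [pow_mul]
    exact Nat.pow_le_pow_left hr s
  have hKpos : 0 < Nat.card K := Nat.card_pos
  have h3 : p ^ s' ≤ n₀ * p ^ (r * s) := by
    refine Nat.le_of_mul_le_mul_right ?_ hKpos
    calc p ^ s' * Nat.card K ≤ n₀ * Nat.card A := h1
      _ ≤ n₀ * (p ^ (r * s) * Nat.card K) := Nat.mul_le_mul_left _ h2
      _ = n₀ * p ^ (r * s) * Nat.card K := by ring
  rw [hs', pow_add, mul_comm] at h3
  have h4 : p ^ (n₀ + 1) ≤ n₀ := Nat.le_of_mul_le_mul_right h3 (pow_pos hp.pos _)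
  have h5 : n₀ < p ^ (n₀ + 1) := by
    calc n₀ < n₀ + 1 := Nat.lt_succ_self _
      _ < p ^ (n₀ + 1) := Nat.lt_pow_self hp.one_lt
  omega

end

/-- Row WIN. -/
theorem WIN : WIN_stmt := by
  intro p r hp A _ _ hA hr P hP hreg
  obtain ⟨u₀, hu₀⟩ := hreg
  have hfin := ALL_finMulAut (A := A)
  have hc := WIN_card hp hA r hr P hP
  refine ⟨hc, ?_⟩
  obtain ⟨k, hk, hkk⟩ := WIN_pig (fun k => (WIN_S P (p ^ WSq p r k)).ncard) (ALL_c p r)
    (fun k => Set.ncard_le_ncard (WIN_S_mono P p (WIN_mono p r k)) (Set.toFinite _))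
    (fun k => by
      refine le_trans ?_ hc
      have h1 : WIN_S P (p ^ WSq p r k) ⊆ (P : Set (MulAut A)) := fun φ hφ => hφ.1
      exact Set.ncard_le_ncard h1 (Set.toFinite _))
  have heq : WIN_S P (p ^ WSq p r k) = WIN_S P (p ^ WSq p r (k + 1)) :=
    Set.eq_of_subset_of_ncard_le (WIN_S_mono P p (WIN_mono p r k)) (le_of_eq hkk) (Set.toFinite _)
  refine ⟨WSq p r (k + 1), WIN_le p r (by omega), ?_⟩
  exact WIN_step hp hA r hr P hP (ALL_c p r) (WSq p r k) hc (le_of_eq heq.symm) u₀ hu₀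

end Pool.Agent.LE
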